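import Pool.Agent.Q69.Cyl
import Pool.Agent.Q69.Trans

/-!
# MP_a8308c_an: a transitive point of a weakly mixing system without a transitive partner

`x` is the indicator of the set `A` of all sums `f₀ + f₁ + …` with `f_k ∈ F(L_k)`, for suitable very
sparse finite sets `F(L_k) ∋ 0`.
-/

set_option autoImplicit false
open Filter Topology Set

namespace Pool.Agent.Results.MP_a8308c_an.NoPartner

open Q69.Cyl

/-- `Tran_S`: the set of points with dense forward orbit `{Sⁿ z : n ∈ ℕ}`. -/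
def Tran {Z : Type} [TopologicalSpace Z] (S : Z → Z) : Set Z :=
  {z | Dense (range fun n : ℕ => S^[n] z)}

/-! ### The sparse sets -/

/-- number of differences -/
def MM (L : ℕ) : ℕ := 3 * L + 1

/-- unit -/
def WW (L : ℕ) : ℕ := 8 * L + 3

/-- the sparse set -/
def FF (L : ℕ) : Set ℕ :=
  {f | f = 0 ∨ ∃ g, g ≤ 2 * MM L + 1 ∧ f = (2 * g + 1) * WW L + (g - (MM L + 1))}

/-- its maximum -/
def mx (L : ℕ) : ℕ := (4 * MM L + 3) * WW L + MM L

lemma FF_zero (L : ℕ) : 0 ∈ FF L := Or.inl rfl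

lemma FF_mem {L g : ℕ} (hg : g ≤ 2 * MM L + 1) :
    (2 * g + 1) * WW L + (g - (MM L + 1)) ∈ FF L := Or.inr ⟨g, hg, rfl⟩

lemma FF_le {L f : ℕ} (h : f ∈ FF L) : f ≤ mx L := by
  rcases h with rfl | ⟨g, hg, rfl⟩
  · exact Nat.zero_le _
  · unfold mx
    have h1 : (2 * g + 1) * WW L ≤ (4 * MM L + 3) * WW L := Nat.mul_le_mul_right _ (by omega)
    omega

lemma mx_mem (L : ℕ) : mx L ∈ FF L := by
  right
  refine ⟨2 * MM L + 1, le_rfl, ?_⟩
  unfold mx
  have : 2 * (2 * MM L + 1) + 1 = 4 * MM L + 3 := by ring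
  rw [this]
  omega

/-- spacing -/
lemma FF_a {L f f' : ℕ} (hf : f ∈ FF L) (hf' : f' ∈ FF L) (hlt : f < f') : f + 2 * L < f' := by
  have hW : 2 * L < WW L := by unfold WW; omega
  rcases hf' with rfl | ⟨g', hg', rfl⟩
  · omega
  · rcases hf with rfl | ⟨g, hg, rfl⟩
    · have : 1 * WW L ≤ (2 * g' + 1) * WW L := Nat.mul_le_mul_right _ (by omega)
      omega
    · have hgg : g < g' := by
        by_contra hcon
        push Not at hcon
        have : (2 * g' + 1) * WW L ≤ (2 * g + 1) * WW L := Nat.mul_le_mul_right _ (by omega)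
        omega
      have : (2 * g + 1 + 2) * WW L ≤ (2 * g' + 1) * WW L := Nat.mul_le_mul_right _ (by omega)
      have h2 : (2 * g + 1 + 2) * WW L = (2 * g + 1) * WW L + 2 * WW L := by ring
      omega

/-- isolation of the differences `f' - 0` -/
lemma FF_b {L f f' f'' : ℕ} (hf : f ∈ FF L) (hf' : f' ∈ FF L) (hf'' : f'' ∈ FF L) (h0 : f ≠ 0)
    (h0' : f' ≠ 0) : (f'' : ℤ) - f - f' < -(2 * L : ℤ) ∨ (2 * L : ℤ) < (f'' : ℤ) - f - f' := by
  rcases hf with h | ⟨g, hg, rfl⟩
  · exact absurd h h0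
  rcases hf' with h | ⟨g', hg', rfl⟩
  · exact absurd h h0'
  have hW : (WW L : ℤ) = 8 * L + 3 := by unfold WW; push_cast; ring
  have hM : (MM L : ℤ) = 3 * L + 1 := by unfold MM; push_cast; ring
  have hL : (0 : ℤ) ≤ L := Int.natCast_nonneg L
  have hι : ((g - (MM L + 1) : ℕ) : ℤ) ≤ MM L := by
    have : g - (MM L + 1) ≤ MM L := by omega
    exact_mod_cast this
  have hι' : ((g' - (MM L + 1) : ℕ) : ℤ) ≤ MM L := by
    have : g' - (MM L + 1) ≤ MM L := by omega
    exact_mod_cast this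
  have hι0 : (0 : ℤ) ≤ ((g - (MM L + 1) : ℕ) : ℤ) := Int.natCast_nonneg _
  have hι0' : (0 : ℤ) ≤ ((g' - (MM L + 1) : ℕ) : ℤ) := Int.natCast_nonneg _
  rcases hf'' with rfl | ⟨g'', hg'', rfl⟩
  · left
    push_cast
    have h1 : (0 : ℤ) ≤ 2 * g * WW L := by positivity
    have h2 : (0 : ℤ) ≤ 2 * g' * WW L := by positivity
    nlinarith
  · have hι'' : ((g'' - (MM L + 1) : ℕ) : ℤ) ≤ MM L := by
      have : g'' - (MM L + 1) ≤ MM L := by omega
      exact_mod_cast this
    have hι0'' : (0 : ℤ) ≤ ((g'' - (MM L + 1) : ℕ) : ℤ) := Int.natCast_nonneg _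
    push_cast
    set e : ℤ := (g'' : ℤ) - g - g' with he
    have key : (2 * (g'' : ℤ) + 1) * WW L + ((g'' - (MM L + 1) : ℕ) : ℤ) -
        ((2 * (g : ℤ) + 1) * WW L + ((g - (MM L + 1) : ℕ) : ℤ)) -
        ((2 * (g' : ℤ) + 1) * WW L + ((g' - (MM L + 1) : ℕ) : ℤ)) =
        (2 * e - 1) * WW L + (((g'' - (MM L + 1) : ℕ) : ℤ) - ((g - (MM L + 1) : ℕ) : ℤ) -
        ((g' - (MM L + 1) : ℕ) : ℤ)) := by rw [he]; ring
    rw [key]
    rcases le_or_gt e 0 with h | h
    · left
      have : (2 * e - 1) * (WW L : ℤ) ≤ -1 * WW L :=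
        mul_le_mul_of_nonneg_right (by omega) (by omega)
      omega
    · right
      have : 1 * (WW L : ℤ) ≤ (2 * e - 1) * WW L :=
        mul_le_mul_of_nonneg_right (by omega) (by omega)
      omega

/-- lengths -/
def LL : ℕ → ℕ
  | 0 => 0
  | k + 1 => LL k + mx (LL k)

/-- the patterns -/
def PP : ℕ → Set ℕ
  | 0 => {0}
  | k + 1 => {n | ∃ f ∈ FF (LL k), ∃ q ∈ PP k, n = f + q}

lemma mx_ge (L : ℕ) : 3 * L + 3 ≤ mx L := by
  unfold mx
  have : 1 * WW L ≤ (4 * MM L + 3) * WW L := Nat.mul_le_mul_right _ (by omega)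
  have h2 : WW L = 8 * L + 3 := rfl
  omega

lemma LL_ge (k : ℕ) : k ≤ LL k := by
  induction k with
  | zero => simp
  | succ k ih =>
    have := mx_ge (LL k)
    change k + 1 ≤ LL k + mx (LL k)
    omega

lemma LL_mono : Monotone LL := monotone_nat_of_le_succ fun k => Nat.le_add_right _ _

lemma PP_le {k : ℕ} : ∀ {n : ℕ}, n ∈ PP k → n ≤ LL k := by
  induction k with
  | zero => intro n h; exact le_of_eq h
  | succ k ih =>
    rintro n ⟨f, hf, q, hq, rfl⟩
    have := FF_le hf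
    have := ih hq
    change f + q ≤ LL k + mx (LL k)
    omega

lemma PP_zero (k : ℕ) : 0 ∈ PP k := by
  induction k with
  | zero => rfl
  | succ k ih => exact ⟨0, FF_zero _, 0, ih, rfl⟩

lemma PP_L (k : ℕ) : LL k ∈ PP k := by
  induction k with
  | zero => rfl
  | succ k ih => exact ⟨_, mx_mem _, LL k, ih, by change LL k + mx (LL k) = _; ring⟩

lemma PP_succ (k : ℕ) : PP k ⊆ PP (k + 1) := fun n hn => ⟨0, FF_zero _, n, hn, by simp⟩

lemma PP_mono : Monotone PP := monotone_nat_of_le_succ PP_succ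

/-- positions of the copies of `PP k` in `PP (k + d)` -/
def DD (k : ℕ) : ℕ → Set ℕ
  | 0 => {0}
  | d + 1 => {c | ∃ f ∈ FF (LL (k + d)), ∃ c1 ∈ DD k d, c = f + c1}

lemma decomp {k : ℕ} : ∀ {d n : ℕ}, n ∈ PP (k + d) ↔ ∃ c ∈ DD k d, ∃ q ∈ PP k, n = c + q := by
  intro d
  induction d with
  | zero =>
    intro n
    constructor
    · intro h; exact ⟨0, rfl, n, h, by simp⟩
    · rintro ⟨c, hc, q, hq, rfl⟩
      obtain rfl : c = 0 := hc
      simpa using hq
  | succ d ih =>
    intro n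
    constructor
    · rintro ⟨f, hf, r, hr, rfl⟩
      obtain ⟨c, hc, q, hq, rfl⟩ := ih.1 hr
      exact ⟨f + c, ⟨f, hf, c, hc, rfl⟩, q, hq, by ring⟩
    · rintro ⟨c, ⟨f, hf, c1, hc1, rfl⟩, q, hq, rfl⟩
      exact ⟨f, hf, c1 + q, ih.2 ⟨c1, hc1, q, hq, rfl⟩, by ring⟩

lemma DD_bound {k d c : ℕ} (hc : c ∈ DD k d) : c + LL k ≤ LL (k + d) :=
  PP_le (decomp.2 ⟨c, hc, LL k, PP_L k, rfl⟩)

lemma DD_spacing {k : ℕ} : ∀ {d c c' : ℕ}, c ∈ DD k d → c' ∈ DD k d → c < c' →
    c + 2 * LL k < c' := by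
  intro d
  induction d with
  | zero =>
    intro c c' hc hc' h
    obtain rfl : c = 0 := hc
    obtain rfl : c' = 0 := hc'
    omega
  | succ d ih =>
    rintro c c' ⟨f, hf, c1, hc1, rfl⟩ ⟨f', hf', c1', hc1', rfl⟩ h
    have b1 := DD_bound hc1
    have b2 := DD_bound hc1'
    have hm : LL k ≤ LL (k + d) := LL_mono (by omega)
    rcases lt_trichotomy f f' with h1 | h1 | h1
    · have := FF_a hf hf' h1
      omega
    · subst h1
      have := ih hc1 hc1' (by omega)
      omega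
    · have := FF_a hf' hf h1
      omega

lemma same_copy {k d c c' q q' : ℕ} (hc : c ∈ DD k d) (hc' : c' ∈ DD k d) (hq : q ≤ LL k)
    (hq' : q' ≤ LL k) (h1 : c + q ≤ c' + q' + LL k) (h2 : c' + q' ≤ c + q + LL k) : c = c' := by
  rcases lt_trichotomy c c' with h | h | h
  · have := DD_spacing hc hc' h; omega
  · exact h
  · have := DD_spacing hc' hc h; omega

/-- the copy is determined by its two ends -/
lemma start {k d c c' q q' : ℕ} (hc : c ∈ DD k d) (hc' : c' ∈ DD k d) (hq : q ∈ PP k)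
    (hq' : q' ∈ PP k) (h : c' + q' = c + q + LL k) : q = 0 ∧ q' = LL k := by
  have h1 := PP_le hq
  have h2 := PP_le hq'
  have := same_copy hc hc' h1 h2 (by omega) (by omega)
  omega

/-- **Coincidences have a constant relative shift.** -/
lemma rel_const {k : ℕ} : ∀ {d : ℕ} {δ : ℤ} {n0 c0' q0' : ℕ}, n0 ∈ PP k → c0' ∈ DD k d →
    q0' ∈ PP k → (n0 : ℤ) + δ = c0' + q0' → ∀ {c c' q q' : ℕ}, c ∈ DD k d → c' ∈ DD k d →
    q ∈ PP k → q' ∈ PP k → (c : ℤ) + q + δ = c' + q' → (q' : ℤ) - q = q0' - n0 := by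
  intro d
  induction d with
  | zero =>
    intro δ n0 c0' q0' hn0 hc0' hq0' h0 c c' q q' hc hc' hq hq' h
    obtain rfl : c0' = 0 := hc0'
    obtain rfl : c = 0 := hc
    obtain rfl : c' = 0 := hc'
    push_cast at h h0
    linarith
  | succ d ih =>
    rintro δ n0 _ q0' hn0 ⟨f0', hf0', c01', hc01', rfl⟩ hq0' h0 _ _ q q' ⟨f, hf, c1, hc1, rfl⟩
      ⟨f', hf', c1', hc1', rfl⟩ hq hq' h
    push_cast at h h0
    have b1 : c1 + q ≤ LL (k + d) := PP_le (decomp.2 ⟨c1, hc1, q, hq, rfl⟩)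
    have b2 : c1' + q' ≤ LL (k + d) := PP_le (decomp.2 ⟨c1', hc1', q', hq', rfl⟩)
    have b3 : c01' + q0' ≤ LL (k + d) := PP_le (decomp.2 ⟨c01', hc01', q0', hq0', rfl⟩)
    have b4 : n0 ≤ LL (k + d) := (PP_le hn0).trans (LL_mono (by omega))
    have b1' : (c1 : ℤ) + q ≤ LL (k + d) := by exact_mod_cast b1
    have b2' : (c1' : ℤ) + q' ≤ LL (k + d) := by exact_mod_cast b2
    have b3' : (c01' : ℤ) + q0' ≤ LL (k + d) := by exact_mod_cast b3
    have b4' : (n0 : ℤ) ≤ LL (k + d) := by exact_mod_cast b4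
    by_cases hf0 : f = 0
    · subst hf0
      have hff : f' = f0' := by
        rcases lt_trichotomy f' f0' with h1 | h1 | h1
        · have := FF_a hf' hf0' h1
          zify at this
          push_cast at h
          linarith [Int.natCast_nonneg c1, Int.natCast_nonneg q, Int.natCast_nonneg c01',
            Int.natCast_nonneg q0', Int.natCast_nonneg c1', Int.natCast_nonneg q',
            Int.natCast_nonneg n0]
        · exact h1
        · have := FF_a hf0' hf' h1
          zify at this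
          push_cast at h
          linarith [Int.natCast_nonneg c1, Int.natCast_nonneg q, Int.natCast_nonneg c01',
            Int.natCast_nonneg q0', Int.natCast_nonneg c1', Int.natCast_nonneg q',
            Int.natCast_nonneg n0]
      subst hff
      apply ih (δ := δ - f') hn0 hc01' hq0' (by linarith) hc1 hc1' hq hq'
      push_cast at h
      linarith
    · by_cases hf0' : f0' = 0
      · subst hf0'
        have hff : f' = f := by
          rcases lt_trichotomy f' f with h1 | h1 | h1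
          · have := FF_a hf' hf h1
            zify at this
            push_cast at h0
            linarith [Int.natCast_nonneg c1, Int.natCast_nonneg q, Int.natCast_nonneg c01',
              Int.natCast_nonneg q0', Int.natCast_nonneg c1', Int.natCast_nonneg q',
              Int.natCast_nonneg n0]
          · exact h1
          · have := FF_a hf hf' h1
            zify at this
            push_cast at h0
            linarith [Int.natCast_nonneg c1, Int.natCast_nonneg q, Int.natCast_nonneg c01',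
              Int.natCast_nonneg q0', Int.natCast_nonneg c1', Int.natCast_nonneg q',
              Int.natCast_nonneg n0]
        subst hff
        apply ih (δ := δ) hn0 hc01' hq0' (by push_cast at h0; linarith) hc1 hc1' hq hq'
        linarith
      · exfalso
        rename_i hf0''
        rcases FF_b hf hf0'' hf' hf0 hf0' with h1 | h1
        · linarith [Int.natCast_nonneg c1, Int.natCast_nonneg q, Int.natCast_nonneg c01',
            Int.natCast_nonneg q0', Int.natCast_nonneg c1', Int.natCast_nonneg q',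
            Int.natCast_nonneg n0]
        · linarith [Int.natCast_nonneg c1, Int.natCast_nonneg q, Int.natCast_nonneg c01',
            Int.natCast_nonneg q0', Int.natCast_nonneg c1', Int.natCast_nonneg q',
            Int.natCast_nonneg n0]

/-! ### The point and the system -/

open Classical in
/-- the indicator of `A = ⋃ PP k` -/
noncomputable def xx (n : ℕ) : Bool := decide (∃ k, n ∈ PP k)

lemma xx_true {n : ℕ} : xx n = true ↔ ∃ k, n ∈ PP k := by simp [xx]

lemma xx_copy {k f i : ℕ} (hf : f ∈ FF (LL k)) (hi : i ≤ LL k) : xx (f + i) = xx i := by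
  -- a general statement for positions of copies
  have key : ∀ {d c i : ℕ}, c ∈ DD k d → i ≤ LL k → xx (c + i) = true → i ∈ PP k := by
    intro d c i hc hi h
    obtain ⟨j, hj⟩ := xx_true.1 h
    -- common level
    have hj' : c + i ∈ PP (k + (d + j)) := PP_mono (by omega) hj
    have hc' : c ∈ DD k (d + j) := by
      have : ∀ j, c ∈ DD k (d + j) := by
        intro j
        induction j with
        | zero => exact hc
        | succ j ih => exact ⟨0, FF_zero _, c, ih, by simp⟩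
      exact this j
    obtain ⟨c2, hc2, q, hq, he⟩ := decomp.1 hj'
    have hq' := PP_le hq
    have := same_copy hc' hc2 hi hq' (by omega) (by omega)
    have : i = q := by omega
    rw [this]; exact hq
  have hf1 : f ∈ DD k 1 := ⟨f, hf, 0, rfl, by simp⟩
  have h0 : (0 : ℕ) ∈ DD k 0 := rfl
  rw [Bool.eq_iff_iff]
  constructor
  · intro h
    exact xx_true.2 ⟨k, key hf1 hi h⟩
  · intro h
    have : i ∈ PP k := key h0 hi (by simpa using h)
    exact xx_true.2 ⟨k + 1, f, hf, i, this, rfl⟩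

/-- the space -/
def XX : Set (ℕ → Bool) := {y | ∀ N : ℕ, ∃ m : ℕ, ∀ i < N, y i = xx (m + i)}

lemma XX_closed : IsClosed XX := by
  rw [isClosed_iff_cyl]
  intro x h N
  obtain ⟨z, hz, hzx⟩ := h N
  obtain ⟨m, hm⟩ := hz N
  exact ⟨m, fun i hi => (hzx i hi).symm.trans (hm i hi)⟩

lemma XX_shift : ∀ x ∈ XX, (fun k => x (k + 1)) ∈ XX := by
  intro x hx N
  obtain ⟨m, hm⟩ := hx (N + 1)
  refine ⟨m + 1, fun i hi => ?_⟩
  have := hm (i + 1) (by omega)
  change x (i + 1) = xx (m + 1 + i)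
  rw [this]
  congr 1
  omega

/-- the shift -/
abbrev TT : XX → XX := shiftOn XX_shift

lemma TT_iter (n : ℕ) (x : XX) (i : ℕ) : (TT^[n] x).1 i = x.1 (i + n) :=
  shiftOn_iter XX_shift n x i

/-- the transitive point -/
noncomputable def pt : XX := ⟨xx, fun _ => ⟨0, fun i _ => by rw [zero_add]⟩⟩

/-- points in open sets -/
lemma basic {U : Set XX} (hU : IsOpen U) (hne : U.Nonempty) :
    ∃ a l : ℕ, ∀ y : XX, (∀ i < l, y.1 i = xx (a + i)) → y ∈ U := by
  obtain ⟨u, hu⟩ := hne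
  obtain ⟨l, hl⟩ := nhds_cyl (hU.mem_nhds hu)
  obtain ⟨a, ha⟩ := u.2 l
  exact ⟨a, l, fun y hy => hl y fun i hi => (hy i hi).trans (ha i hi).symm⟩

lemma pt_tran : pt ∈ Tran TT := by
  change Dense (range fun n : ℕ => TT^[n] pt)
  rw [dense_iff_inter_open]
  intro U hU hne
  obtain ⟨a, l, h⟩ := basic hU hne
  refine ⟨TT^[a] pt, h _ (fun i _ => ?_), a, rfl⟩
  rw [TT_iter, add_comm]
  rfl

lemma surj : Function.Surjective TT := by
  haveI : CompactSpace XX := isCompact_iff_compactSpace.1 XX_closed.isCompact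
  have hcl : IsClosed (range TT) := (isCompact_range (shiftOn_cont XX_shift)).isClosed
  have hd : Dense (range TT) := by
    rw [dense_iff_inter_open]
    intro U hU hne
    obtain ⟨a, l, h⟩ := basic hU hne
    -- a recurrence of the window
    set k := a + l with hk
    have hkL := LL_ge k
    set f := (2 * 0 + 1) * WW (LL k) + (0 - (MM (LL k) + 1)) with hf
    have hfF : f ∈ FF (LL k) := FF_mem (Nat.zero_le _)
    have hf1 : 1 ≤ f := by
      have : WW (LL k) = 8 * LL k + 3 := rfl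
      omega
    refine ⟨TT^[f + a] pt, h _ (fun i hi => ?_), TT^[f + a - 1] pt, ?_⟩
    · rw [TT_iter]
      change xx (i + (f + a)) = _
      rw [show i + (f + a) = f + (a + i) by ring]
      exact xx_copy hfF (by omega)
    · rw [← Function.iterate_succ_apply' TT]
      congr 1
      omega
  intro y
  have : y ∈ closure (range TT) := hd y
  rwa [hcl.closure_eq] at this

/-- the mixing estimate -/
lemma mix {a l b l' k : ℕ} (ha : a + l ≤ LL k) (hb : b + l' ≤ LL k) :
    ∃ m : ℕ, (∀ i < l, xx (m + i) = xx (a + i)) ∧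
      ∀ i < l', xx (m + (2 * (MM (LL k) + 1) * WW (LL k) + 2 * LL k) + i) = xx (b + i) := by
  set L := LL k with hL
  set u := 2 * L + a - b with hu
  have hM : MM L = 3 * L + 1 := rfl
  have hu1 : u ≤ MM L := by omega
  have hf1 := FF_mem (L := L) (g := u) (by omega)
  have hf2 := FF_mem (L := L) (g := u + (MM L + 1)) (by omega)
  have e1 : u - (MM L + 1) = 0 := by omega
  have e2 : u + (MM L + 1) - (MM L + 1) = u := by omega
  rw [e1] at hf1
  rw [e2] at hf2
  refine ⟨(2 * u + 1) * WW L + 0 + a, fun i hi => ?_, fun i hi => ?_⟩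
  · rw [add_assoc]
    exact xx_copy hf1 (by omega)
  · have e3 : (2 * u + 1) * WW L + 0 + a + (2 * (MM L + 1) * WW L + 2 * L) + i =
        ((2 * (u + (MM L + 1)) + 1) * WW L + u) + (b + i) := by
      have : 2 * L + a = u + b := by omega
      have h2 : (2 * u + 1) * WW L + 0 + a + (2 * (MM L + 1) * WW L + 2 * L) + i =
        (2 * (u + (MM L + 1)) + 1) * WW L + (2 * L + a) + i := by ring
      rw [h2, this]; ring
    rw [e3]
    exact xx_copy hf2 (by omega)

lemma weak_mix (U V : Set (XX × XX)) (hU : IsOpen U) (hUne : U.Nonempty) (hV : IsOpen V)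
    (hVne : V.Nonempty) : ∃ n : ℕ, (U ∩ (Prod.map TT TT)^[n] ⁻¹' V).Nonempty := by
  obtain ⟨⟨u, u'⟩, hu⟩ := hUne
  obtain ⟨⟨v, v'⟩, hv⟩ := hVne
  obtain ⟨A, A', hA, hA', huA, huA', hAA⟩ := isOpen_prod_iff.1 hU u u' hu
  obtain ⟨C, C', hC, hC', hvC, hvC', hCC⟩ := isOpen_prod_iff.1 hV v v' hv
  obtain ⟨a, l, ha⟩ := basic hA ⟨u, huA⟩
  obtain ⟨a', l', ha'⟩ := basic hA' ⟨u', huA'⟩
  obtain ⟨b, j, hb⟩ := basic hC ⟨v, hvC⟩
  obtain ⟨b', j', hb'⟩ := basic hC' ⟨v', hvC'⟩
  set k := a + l + (a' + l') + (b + j) + (b' + j') with hk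
  have hkL := LL_ge k
  obtain ⟨m, hm1, hm2⟩ := mix (a := a) (l := l) (b := b) (l' := j) (k := k) (by omega) (by omega)
  obtain ⟨m', hm1', hm2'⟩ := mix (a := a') (l := l') (b := b') (l' := j') (k := k) (by omega)
    (by omega)
  set n := 2 * (MM (LL k) + 1) * WW (LL k) + 2 * LL k with hn
  refine ⟨n, (TT^[m] pt, TT^[m'] pt), hAA ⟨ha _ ?_, ha' _ ?_⟩, ?_⟩
  · intro i hi
    rw [TT_iter, add_comm]
    exact hm1 i hi
  · intro i hi
    rw [TT_iter, add_comm]
    exact hm1' i hi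
  · rw [mem_preimage]
    apply hCC
    rw [Prod.map_iterate]
    refine ⟨hb _ ?_, hb' _ ?_⟩
    · intro i hi
      change (TT^[n] (TT^[m] pt)).1 i = _
      rw [TT_iter, TT_iter]
      change xx (i + n + m) = _
      rw [show i + n + m = m + n + i by ring]
      exact hm2 i hi
    · intro i hi
      change (TT^[n] (TT^[m'] pt)).1 i = _
      rw [TT_iter, TT_iter]
      change xx (i + n + m') = _
      rw [show i + n + m' = m' + n + i by ring]
      exact hm2' i hi

lemma no_partner (y : XX) : (pt, y) ∉ Tran (Prod.map TT TT) := by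
  intro h
  have hd : Dense (range fun n : ℕ => (Prod.map TT TT)^[n] (pt, y)) := h
  have hvisit : ∀ O : Set (XX × XX), IsOpen O → O.Nonempty → ∃ n : ℕ, (TT^[n] pt, TT^[n] y) ∈ O := by
    intro O hO hne
    obtain ⟨z, hz, n, hn⟩ := hd.inter_open_nonempty O hO hne
    refine ⟨n, ?_⟩
    have e : (Prod.map TT TT)^[n] (pt, y) = z := hn
    rw [Prod.map_iterate] at e
    change (TT^[n] pt, TT^[n] y) = z at e
    rw [e]; exact hz
  have hopen : ∀ i j : ℕ, IsOpen {z : XX × XX | z.1.1 i = true ∧ z.2.1 j = true} := by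
    intro i j
    exact (((isClopen_coord XX i {true}).2).preimage continuous_fst).inter
      (((isClopen_coord XX j {true}).2).preimage continuous_snd)
  have h0t : xx 0 = true := xx_true.2 ⟨0, rfl⟩
  -- the first coincidence
  obtain ⟨n0, hn0⟩ := hvisit {z | z.1.1 0 = true ∧ z.2.1 0 = true} (hopen 0 0)
    ⟨(pt, pt), h0t, h0t⟩
  obtain ⟨hx0, hy0⟩ := hn0
  simp only [TT_iter, zero_add] at hx0 hy0
  obtain ⟨k', hk'⟩ := xx_true.1 hx0
  set k := k' + 1 with hk
  have hn0k : n0 ∈ PP k := PP_succ _ hk'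
  set L := LL k with hL
  have hLpos : 1 ≤ L := (by omega : 1 ≤ k).trans (LL_ge k)
  have hLt : xx L = true := xx_true.2 ⟨k, PP_L k⟩
  -- relative shift `0`
  obtain ⟨n1, ⟨hx1, hy1⟩, hx1', hy1'⟩ := hvisit ({z | z.1.1 0 = true ∧ z.2.1 0 = true} ∩
    {z | z.1.1 L = true ∧ z.2.1 L = true}) ((hopen 0 0).inter (hopen L L))
    ⟨(pt, pt), ⟨h0t, h0t⟩, hLt, hLt⟩
  simp only [TT_iter, zero_add] at hx1 hy1 hx1' hy1'
  -- relative shift `L`
  set f := (2 * 0 + 1) * WW L + (0 - (MM L + 1)) with hf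
  have hfF : f ∈ FF (LL k) := FF_mem (Nat.zero_le _)
  have hfL : L ≤ f := by
    have : WW L = 8 * L + 3 := rfl
    omega
  obtain ⟨n2, ⟨hx2, hy2⟩, hx2', hy2'⟩ := hvisit ({z | z.1.1 L = true ∧ z.2.1 0 = true} ∩
    {z | z.1.1 (2 * L) = true ∧ z.2.1 L = true}) ((hopen L 0).inter (hopen (2 * L) L))
    ⟨(TT^[f - L] pt, pt), ⟨by
      change (TT^[f - L] pt).1 L = true
      rw [TT_iter]
      change xx (L + (f - L)) = true
      rw [show L + (f - L) = f + 0 by omega, xx_copy hfF (Nat.zero_le _)]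
      exact h0t, h0t⟩, by
      change (TT^[f - L] pt).1 (2 * L) = true
      rw [TT_iter]
      change xx (2 * L + (f - L)) = true
      rw [show 2 * L + (f - L) = f + L by omega, xx_copy hfF le_rfl]
      exact hLt, hLt⟩
  simp only [TT_iter, zero_add] at hx2 hy2 hx2' hy2'
  change xx (L + n1) = true at hx1'
  change xx n1 = true at hx1
  change xx (L + n2) = true at hx2
  change xx (2 * L + n2) = true at hx2'
  -- a common level for the times
  have hlevel : ∀ {j : ℕ}, xx j = true → ∃ d0, ∀ d, d0 ≤ d → j ∈ PP (k + d) := by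
    intro j hj
    obtain ⟨r, hr⟩ := xx_true.1 hj
    exact ⟨r, fun d hd => PP_mono (by omega) hr⟩
  obtain ⟨d1, hd1⟩ := hlevel hx1
  obtain ⟨d1', hd1'⟩ := hlevel hx1'
  obtain ⟨d2, hd2⟩ := hlevel hx2
  obtain ⟨d2', hd2'⟩ := hlevel hx2'
  set d := d1 + d1' + d2 + d2' with hd'
  obtain ⟨K, hK⟩ : ∃ K, K = k + d := ⟨_, rfl⟩
  have hKK : LL K = LL (k + d) := by rw [hK]
  have m1 : n1 ∈ PP (k + d) := hd1 d (by omega)
  have m1' : L + n1 ∈ PP (k + d) := hd1' d (by omega)
  have m2 : L + n2 ∈ PP (k + d) := hd2 d (by omega)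
  have m2' : 2 * L + n2 ∈ PP (k + d) := hd2' d (by omega)
  have m0 : n0 ∈ PP (k + d) := PP_mono (by omega) hn0k
  have l0 := PP_le m0
  have l1 := PP_le m1
  have l1' := PP_le m1'
  have l2 := PP_le m2
  rw [← hKK] at l0 l1 l1' l2
  -- the shift of `y`
  obtain ⟨m, hm⟩ := y.2 (LL K + 1)
  -- copies of `PP K` around `m`
  have hcopy : ∃ (d' c : ℕ), c ∈ DD K d' ∧ ∀ j, j ≤ LL K → y.1 j = true →
      ∃ r ∈ PP K, m + j = c + r := by
    have hj0 : xx (m + n0) = true := by rw [← hm n0 (by omega)]; exact hy0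
    obtain ⟨r0, hr0⟩ := xx_true.1 hj0
    -- a level containing all of `m + j`
    have hall : ∃ R, ∀ j, j ≤ LL K → y.1 j = true → m + j ∈ PP (K + R) := by
      have h1 : ∀ j, ∃ R, j ≤ LL K → y.1 j = true → m + j ∈ PP (K + R) := by
        intro j
        by_cases hj : j ≤ LL K ∧ y.1 j = true
        · have : xx (m + j) = true := by rw [← hm j (by omega)]; exact hj.2
          obtain ⟨r, hr⟩ := xx_true.1 this
          exact ⟨r, fun _ _ => PP_mono (by omega) hr⟩
        · exact ⟨0, fun a b => absurd ⟨a, b⟩ hj⟩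
      choose R hR using h1
      refine ⟨(Finset.range (LL K + 1)).sup R, fun j hj hjt => PP_mono ?_ (hR j hj hjt)⟩
      have : R j ≤ (Finset.range (LL K + 1)).sup R :=
        Finset.le_sup (Finset.mem_range.2 (by omega))
      omega
    obtain ⟨R, hR⟩ := hall
    obtain ⟨c, hc, r, hr, he⟩ := decomp.1 (hR n0 l0 hy0)
    refine ⟨R, c, hc, fun j hj hjt => ?_⟩
    obtain ⟨c', hc', r', hr', he'⟩ := decomp.1 (hR j hj hjt)
    have hrl := PP_le hr
    have hrl' := PP_le hr'
    have : c = c' := same_copy hc hc' hrl hrl' (by omega) (by omega)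
    subst this
    exact ⟨r', hr', he'⟩
  obtain ⟨d', c, -, hc⟩ := hcopy
  set δ : ℤ := (m : ℤ) - c with hδ
  have hshift : ∀ j, j ≤ LL K → y.1 j = true → ∃ r ∈ PP (k + d), (j : ℤ) + δ = r := by
    intro j hj hjt
    obtain ⟨r, hr, he⟩ := hc j hj hjt
    refine ⟨r, hK ▸ hr, ?_⟩
    rw [hδ]
    have : (m : ℤ) + j = c + r := by exact_mod_cast he
    linarith
  -- decompositions
  obtain ⟨r0, hr0, e0⟩ := hshift n0 l0 hy0
  obtain ⟨r1, hr1, e1⟩ := hshift n1 l1 hy1
  obtain ⟨r1', hr1', e1'⟩ := hshift (L + n1) l1' hy1'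
  obtain ⟨r2, hr2, e2⟩ := hshift n2 (by omega) hy2
  obtain ⟨r2', hr2', e2'⟩ := hshift (L + n2) l2 hy2'
  obtain ⟨c0', hc0', q0', hq0', f0⟩ := decomp.1 hr0
  obtain ⟨a1, ha1, p1, hp1, g1⟩ := decomp.1 m1
  obtain ⟨a1', ha1', p1', hp1', g1'⟩ := decomp.1 m1'
  obtain ⟨b1, hb1, s1, hs1, t1⟩ := decomp.1 hr1
  obtain ⟨b1', hb1', s1', hs1', t1'⟩ := decomp.1 hr1'
  obtain ⟨a2, ha2, p2, hp2, g2⟩ := decomp.1 m2
  obtain ⟨a2', ha2', p2', hp2', g2'⟩ := decomp.1 m2'
  obtain ⟨b2, hb2, s2, hs2, t2⟩ := decomp.1 hr2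
  obtain ⟨b2', hb2', s2', hs2', t2'⟩ := decomp.1 hr2'
  have hrr1 : r1' = r1 + L := by
    have : (r1' : ℤ) = r1 + L := by rw [← e1', ← e1]; push_cast; ring
    exact_mod_cast this
  have hrr2 : r2' = r2 + L := by
    have : (r2' : ℤ) = r2 + L := by rw [← e2', ← e2]; push_cast; ring
    exact_mod_cast this
  have z1 := start ha1 ha1' hp1 hp1' (by omega)
  have z2 := start hb1 hb1' hs1 hs1' (by omega)
  have z3 := start ha2 ha2' hp2 hp2' (by omega)
  have z4 := start hb2 hb2' hs2 hs2' (by omega)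
  have R1 := rel_const hn0k hc0' hq0' (δ := δ) (by rw [e0, f0]; push_cast; ring) ha1 hb1 hp1 hs1
    (by
      have : (n1 : ℤ) = a1 + p1 := by exact_mod_cast g1
      rw [← this, e1, t1]; push_cast; ring)
  have R2 := rel_const hn0k hc0' hq0' (δ := δ) (by rw [e0, f0]; push_cast; ring) ha2 hb2' hp2 hs2'
    (by
      have : ((L + n2 : ℕ) : ℤ) = a2 + p2 := by exact_mod_cast g2
      rw [← this, e2', t2']; push_cast; ring)
  rw [z1.1, z2.1] at R1
  rw [z3.1, z4.2] at R2
  push_cast at R1 R2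
  have : (0 : ℤ) < L := by exact_mod_cast hLpos
  omega

/-- There are a weakly mixing system `(X, T)` and a transitive point `x` such that `(x, y)` is not a
transitive point of `T × T` for any `y ∈ X`. -/
theorem result : ∃ (X : Type) (_ : MetricSpace X) (_ : CompactSpace X) (T : X → X),
    Continuous T ∧ Function.Surjective T ∧ (Tran (Prod.map T T)).Nonempty ∧
    ∃ x ∈ Tran T, ∀ y : X, (x, y) ∉ Tran (Prod.map T T) := by
  haveI : CompactSpace XX := isCompact_iff_compactSpace.1 XX_closed.isCompact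
  refine ⟨XX, TopologicalSpace.metrizableSpaceMetric XX, inferInstance, TT, shiftOn_cont _, surj,
    ?_, pt, pt_tran, no_partner⟩
  haveI : Nonempty (XX × XX) := ⟨(pt, pt)⟩
  exact Q69.Trans.exists_dense_orbit ((shiftOn_cont XX_shift).prodMap (shiftOn_cont XX_shift))
    weak_mix

end Pool.Agent.Results.MP_a8308c_an.NoPartner
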